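import Pool.Agent.H59.LIN.Targets

/-!
# The left multiplications of the Hecke algebras (row HL of lin_modules)
-/

set_option autoImplicit false

open Finset

namespace Pool.Agent.H86.LIN

open Pool.Agent.H59.LIN

section

variable {K : Type} [CommRing K]

theorem mm_ext {m : ℕ} {x y : MM K (m + 1)} (h : ∀ l < m + 2, gp K m l x = gp K m l y) : x = y := by
  refine funext fun l : Fin (m + 2) => ?_
  have h1 := h l l.2
  unfold gp at h1
  rw [dif_pos l.2] at h1
  exact h1

theorem gp_pim {m : ℕ} {V : Type} [AddCommGroup V] [Module K V] (F : ℕ → V →ₗ[K] MM K m)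
    {l : ℕ} (hl : l < m + 2) (x : V) : gp K m l (pim K m F x) = F l x := by
  unfold gp
  rw [dif_pos hl]
  rfl

theorem gp_sg {m k l : ℕ} (hk : k < m + 2) (hl : l < m + 2) (y : MM K m) :
    gp K m l (sg K m k y) = if l = k then y else 0 := by
  unfold gp sg
  rw [dif_pos hk, dif_pos hl]
  show (Pi.single (M := fun _ : Fin (m + 2) => MM K m) (⟨k, hk⟩ : Fin (m + 2)) y) ⟨l, hl⟩ = _
  by_cases h : l = k
  · subst h
    rw [if_pos rfl, Pi.single_eq_same]
  · rw [if_neg h, Pi.single_eq_of_ne]
    intro h1
    exact h (congrArg Fin.val h1)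

theorem gp_io {m l : ℕ} (hl : l < m + 2) (y : MM K m) :
    gp K m l (io K m y) = if l = m + 1 then y else 0 :=
  gp_sg (by omega) hl y

/-- components of the right multiplication -/
theorem gp_RR (s κ : K) {m i l : ℕ} (hl : l < m + 2) (x : MM K (m + 1)) :
    gp K m l (RR s κ (m + 1) i x) =
      if l < i then RR s κ m (i - 1) (gp K m l x)
      else if l = i then gp K m (i + 1) x + s • gp K m i x
      else if l = i + 1 then κ • gp K m i x
      else RR s κ m i (gp K m l x) := by
  rw [RR, gp_pim _ hl]
  split_ifs <;> rfl

theorem gp_la {m l : ℕ} (hl : l < m + 3) (x : MM K (m + 1)) :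
    gp K (m + 1) l (la K (m + 1) x) = if l < m + 2 then io K m (gp K m l x) else 0 := by
  rw [la, gp_pim _ hl]
  split_ifs <;> rfl

theorem gp_LL (s κ : K) {m i l : ℕ} (hi : i < m) (hl : l < m + 2) (x : MM K (m + 1)) :
    gp K m l (LL s κ (m + 1) i x) = LL s κ m i (gp K m l x) := by
  rw [LL, if_pos hi, gp_pim _ hl]
  rfl

theorem LL_top (s κ : K) {m : ℕ} (x : MM K (m + 1)) :
    LL s κ (m + 1) m x = ∑ k ∈ range (m + 2), RC s κ (m + 1) k (la K m (gp K m k x)) := by
  rw [LL, if_neg (lt_irrefl m), LinearMap.sum_apply]
  rfl

/-- (1) -/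
theorem la_RR (s κ : K) (hHC : T_HC) (m i : ℕ) (hi : i < m) (x : MM K m) :
    la K m (RR s κ m i x) = RR s κ (m + 1) i (la K m x) := by
  obtain _ | m := m
  · exact absurd hi (Nat.not_lt_zero i)
  have hio := (hHC K s κ m).1
  refine mm_ext fun l hl => ?_
  rw [gp_la hl, gp_RR s κ hl]
  by_cases h1 : l < i
  · rw [if_pos h1, if_pos (by omega : l < m + 2), gp_RR s κ (by omega), if_pos h1,
      gp_la hl, if_pos (by omega : l < m + 2), hio (i - 1) (by omega)]
  · rw [if_neg h1]
    by_cases h2 : l = i
    · subst h2
      rw [if_pos rfl, if_pos (by omega : l < m + 2), gp_RR s κ (by omega), if_neg h1, if_pos rfl,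
        gp_la (by omega), gp_la (by omega), if_pos (by omega : l + 1 < m + 2),
        if_pos (by omega : l < m + 2), map_add, map_smul]
    · rw [if_neg h2]
      by_cases h3 : l = i + 1
      · subst h3
        rw [if_pos rfl, if_pos (by omega : i + 1 < m + 2), gp_RR s κ (by omega), if_neg h1,
          if_neg h2, if_pos rfl, gp_la (by omega), if_pos (by omega : i < m + 2), map_smul]
      · rw [if_neg h3, gp_la hl]
        by_cases h4 : l < m + 2
        · rw [if_pos h4, if_pos h4, gp_RR s κ h4, if_neg h1, if_neg h2, if_neg h3,
            hio i (by omega)]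
        · rw [if_neg h4, if_neg h4, map_zero]

/-- (2) -/
theorem LL_RR (s κ : K) (hHC : T_HC) : ∀ (m i j : ℕ), i < m → j < m → ∀ x : MM K m,
    LL s κ m i (RR s κ m j x) = RR s κ m j (LL s κ m i x) := by
  intro m
  induction m with
  | zero => exact fun i _ hi => absurd hi (Nat.not_lt_zero i)
  | succ m ih =>
      intro i j hi hj x
      by_cases him : i < m
      · refine mm_ext fun l hl => ?_
        rw [gp_LL s κ him hl, gp_RR s κ hl, gp_RR s κ hl]
        by_cases h1 : l < j
        · rw [if_pos h1, if_pos h1, gp_LL s κ him hl, ih i (j - 1) him (by omega)]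
        · rw [if_neg h1, if_neg h1]
          by_cases h2 : l = j
          · rw [if_pos h2, if_pos h2, gp_LL s κ him (by omega), gp_LL s κ him (by omega), map_add,
              map_smul]
          · rw [if_neg h2, if_neg h2]
            by_cases h3 : l = j + 1
            · rw [if_pos h3, if_pos h3, gp_LL s κ him (by omega), map_smul]
            · rw [if_neg h3, if_neg h3, gp_LL s κ him hl, ih i j him (by omega)]
      · have him' : i = m := by omega
        subst him'
        have hRC := (hHC K s κ (i + 1)).2.2
        have hla := la_RR s κ hHC i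
        rw [LL_top, LL_top, map_sum]
        have hterm : ∀ k ∈ range (i + 2),
            RC s κ (i + 1) k (la K i (gp K i k (RR s κ (i + 1) j x))) =
            RR s κ (i + 1) j (RC s κ (i + 1) k (la K i (gp K i k x))) +
            ((if k = j then RC s κ (i + 1) j (la K i (gp K i (j + 1) x)) -
              κ • RC s κ (i + 1) (j + 1) (la K i (gp K i j x)) else 0) +
            (if k = j + 1 then κ • RC s κ (i + 1) (j + 1) (la K i (gp K i j x)) -
              RC s κ (i + 1) j (la K i (gp K i (j + 1) x)) else 0)) := by
          intro k hk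
          have hk' : k < i + 2 := mem_range.1 hk
          rw [gp_RR s κ hk', hRC k j (by omega) hj]
          by_cases h1 : k < j
          · rw [if_pos h1, if_neg (by omega : ¬ j + 1 < k), if_neg (by omega : ¬ j + 1 = k),
              if_neg (by omega : ¬ j = k), if_neg (by omega : ¬ k = j),
              if_neg (by omega : ¬ k = j + 1), hla (j - 1) (by omega), add_zero, add_zero]
          · rw [if_neg h1]
            by_cases h2 : k = j
            · subst h2
              rw [if_pos rfl, if_neg (by omega : ¬ k + 1 < k), if_neg (by omega : ¬ k + 1 = k),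
                if_pos rfl, if_pos rfl, if_neg (by omega : ¬ k = k + 1), map_add, map_smul,
                map_add, map_smul, add_zero]
              abel
            · rw [if_neg h2]
              by_cases h3 : k = j + 1
              · subst h3
                rw [if_pos rfl, if_neg (by omega : ¬ j + 1 < j + 1), if_pos rfl,
                  if_neg (by omega : ¬ j + 1 = j), if_pos rfl, map_smul, map_smul, zero_add]
                abel
              · rw [if_neg h3, if_pos (by omega : j + 1 < k), if_neg h2, if_neg h3,
                  hla j (by omega), add_zero, add_zero]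
        rw [Finset.sum_congr rfl hterm, Finset.sum_add_distrib, Finset.sum_add_distrib,
          Finset.sum_ite_eq' (range (i + 2)) j, Finset.sum_ite_eq' (range (i + 2)) (j + 1),
          if_pos (mem_range.2 (by omega)), if_pos (mem_range.2 (by omega))]
        abel

theorem RC_top (s κ : K) (m : ℕ) (x : MM K m) : RC s κ m m x = x := by
  unfold RC
  rw [Nat.sub_self]
  rfl

theorem la_eb (m : ℕ) : la K m (eb K m) = sg K m m (eb K m) := by
  obtain _ | m := m
  · rfl
  · refine mm_ext fun l hl => ?_
    rw [gp_la hl, gp_sg (by omega) hl, eb]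
    by_cases h1 : l = m + 1
    · rw [if_pos h1, if_pos (by omega : l < m + 2), gp_io (by omega), if_pos h1]
    · rw [if_neg h1]
      by_cases h2 : l < m + 2
      · rw [if_pos h2, gp_io h2, if_neg h1, map_zero]
      · rw [if_neg h2]

/-- (3) -/
theorem LL_eb (s κ : K) (hHC : T_HC) : ∀ (m i : ℕ), i < m →
    LL s κ m i (eb K m) = RR s κ m i (eb K m) := by
  intro m
  induction m with
  | zero => exact fun i hi => absurd hi (Nat.not_lt_zero i)
  | succ m ih =>
      intro i hi
      have heb : eb K (m + 1) = io K m (eb K m) := rfl
      by_cases him : i < m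
      · rw [heb, ← (hHC K s κ m).1 i him, ← ih i him]
        refine mm_ext fun l hl => ?_
        rw [gp_LL s κ him hl, gp_io hl, gp_io hl]
        by_cases h1 : l = m + 1
        · rw [if_pos h1, if_pos h1]
        · rw [if_neg h1, if_neg h1, map_zero]
      · have him' : i = m := by omega
        subst him'
        have h1 : LL s κ (i + 1) i (io K i (eb K i)) = la K i (eb K i) := by
          rw [LL_top, Finset.sum_eq_single (i + 1)]
          · rw [gp_io (by omega), if_pos rfl, RC_top]
          · intro k hk hne
            rw [gp_io (mem_range.1 hk), if_neg hne, map_zero, map_zero]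
          · intro h
            exact absurd (mem_range.2 (by omega)) h
        rw [heb, h1, la_eb]
        refine mm_ext fun l hl => ?_
        rw [gp_sg (by omega) hl, gp_RR s κ hl]
        by_cases h1 : l < i
        · rw [if_pos h1, if_neg (by omega : ¬ l = i), gp_io hl, if_neg (by omega : ¬ l = i + 1),
            map_zero]
        · rw [if_neg h1]
          by_cases h2 : l = i
          · rw [if_pos h2, if_pos h2, gp_io (by omega), gp_io (by omega), if_pos rfl,
              if_neg (by omega : ¬ i = i + 1), smul_zero, add_zero]
          · rw [if_neg h2, if_neg h2, if_pos (by omega : l = i + 1), gp_io (by omega),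
              if_neg (by omega : ¬ i = i + 1), smul_zero]

end

theorem pf_HL (hHR : Pool.Agent.H59.LIN.T_HR) (hHC : Pool.Agent.H59.LIN.T_HC) :
    Pool.Agent.H59.LIN.T_HL := by
  intro K _ s κ m
  have _ := hHR
  exact ⟨fun i hi x => la_RR s κ hHC m i hi x, fun i j hi hj x => LL_RR s κ hHC m i j hi hj x,
    fun i hi => LL_eb s κ hHC m i hi⟩

end Pool.Agent.H86.LIN
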